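import Mathlib
import Pool.Agent.R159.RankTwoD

set_option autoImplicit false

/-!
# MP_7e2005_co, Q2: two-element signed spanning sets in `ℤ_4 × ℤ_{4l}`
-/

namespace Pool.Agent.Results.MP_7e2005_co.FourCase

/-- `[0,s]_± A`: the set of the sums `∑ λ_a a` over `a ∈ A`, with integer coefficients satisfying
`∑ |λ_a| ≤ s`. -/
def signedSums {G : Type*} [AddCommGroup G] (s : ℕ) (A : Finset G) : Set G :=
  {g | ∃ c : G → ℤ, ∑ a ∈ A, |c a| ≤ s ∧ ∑ a ∈ A, c a • a = g}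

/-- `φ_±(G,[0,s])`: the least size of a subset `A` of `G` with `[0,s]_± A = G`. -/
noncomputable def phi (G : Type*) [AddCommGroup G] (s : ℕ) : ℕ :=
  sInf {m : ℕ | ∃ A : Finset G, A.card = m ∧ signedSums s A = Set.univ}

theorem phi_eq {G : Type*} [AddCommGroup G] (s : ℕ) : phi G s = R159.RankTwo.phi G s := by
  unfold phi R159.RankTwo.phi
  congr 1
  ext m
  constructor
  · rintro ⟨A, hA, h⟩
    refine ⟨A, hA, fun g => ?_⟩
    have : g ∈ signedSums s A := by rw [h]; exact Set.mem_univ g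
    exact this
  · rintro ⟨A, hA, h⟩
    exact ⟨A, hA, Set.eq_univ_of_forall h⟩

/-- The positive integers `l` with `φ_±(ℤ_4 × ℤ_{4l},[0,s]) = 2`, according to `s` modulo `4`.
* `s = 4m` and `s = 4m + 1`: those with `l ≤ m (2 m - 1)`, and the even `l ≤ 2 m²` if `m` is even,
  and the `l ≤ 2 m²` with `l ≡ 2 (mod 4)` if `m` is odd.
* `s = 4m + 2` and `s = 4m + 3`: those with `l ≤ 2 m² + 2 m`. -/
theorem result (l m t : ℕ) (hl : 1 ≤ l) :
    (t < 2 → (phi (ZMod 4 × ZMod (4 * l)) (4 * m + t) = 2 ↔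
      l ≤ m * (2 * m - 1) ∨ (Even m ∧ Even l ∧ l ≤ 2 * m ^ 2) ∨
        (Odd m ∧ l % 4 = 2 ∧ l ≤ 2 * m ^ 2))) ∧
    (2 ≤ t → t < 4 → (phi (ZMod 4 × ZMod (4 * l)) (4 * m + t) = 2 ↔ l ≤ 2 * m ^ 2 + 2 * m)) := by
  have h := fun s => R159.RankTwo.phi_eq_two_iff 4 l s (by norm_num) hl
    (AddEquiv.refl (ZMod 4 × ZMod (4 * l)))
  have o : ¬ Odd 4 := by decide
  refine ⟨?_, ?_⟩
  · intro ht
    rw [phi_eq, h]
    unfold R159.RankTwo.Crit
    have e1 : (4 * m + t) / 4 = m := by omega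
    have e2 : (4 * m + t) % 4 = t := by omega
    rw [e1, e2]
    constructor
    · rintro (⟨-, h1⟩ | ⟨h1, -⟩ | ⟨h1, -⟩)
      · exact h1
      · omega
      · exact absurd h1 o
    · intro h1
      exact Or.inl ⟨by omega, h1⟩
  · intro ht ht4
    rw [phi_eq, h]
    unfold R159.RankTwo.Crit
    have e1 : (4 * m + t) / 4 = m := by omega
    have e2 : (4 * m + t) % 4 = t := by omega
    rw [e1, e2]
    constructor
    · rintro (⟨h1, -⟩ | ⟨-, h1⟩ | ⟨h1, -⟩)
      · omega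
      · exact h1
      · exact absurd h1 o
    · intro h1
      exact Or.inr (Or.inl ⟨by omega, h1⟩)

end Pool.Agent.Results.MP_7e2005_co.FourCase
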