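import Mathlib
import Pool.Agent.R159.RankTwoD

set_option autoImplicit false

/-!
# MP_7e2005_co, Q1: two-element signed spanning sets in `ℤ_3 × ℤ_{3k}`
-/

namespace Pool.Agent.Results.MP_7e2005_co.ThreeCase

/-- `[0,s]_± A`: the set of the sums `∑ λ_a a` over `a ∈ A`, with integer coefficients satisfying
`∑ |λ_a| ≤ s`. -/
def signedSums {G : Type*} [AddCommGroup G] (s : ℕ) (A : Finset G) : Set G :=
  {g | ∃ c : G → ℤ, ∑ a ∈ A, |c a| ≤ s ∧ ∑ a ∈ A, c a • a = g}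

/-- `φ_±(G,[0,s])`: the least size of a subset `A` of `G` with `[0,s]_± A = G`. -/
noncomputable def phi (G : Type*) [AddCommGroup G] (s : ℕ) : ℕ :=
  sInf {m : ℕ | ∃ A : Finset G, A.card = m ∧ signedSums s A = Set.univ}

theorem phi_eq {G : Type*} [AddCommGroup G] (s : ℕ) : phi G s = R159.RankTwo.phi G s := by
  unfold phi R159.RankTwo.phi
  congr 1
  ext m
  constructor
  · rintro ⟨A, hA, h⟩
    refine ⟨A, hA, fun g => ?_⟩
    have : g ∈ signedSums s A := by rw [h]; exact Set.mem_univ g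
    exact this
  · rintro ⟨A, hA, h⟩
    exact ⟨A, hA, Set.eq_univ_of_forall h⟩

/-- The positive integers `k` with `φ_±(ℤ_3 × ℤ_{3k},[0,s]) = 2`, according to `s` modulo `3`.
* `s = 3m`: those with `k ≤ m (2 m - 1)`, and the even `k ≤ 2 m²` if `m` is even, and the
  `k ≤ 2 m²` with `k ≡ 2 (mod 4)` if `m` is odd.
* `s = 3m + 1`: those with `k ≤ 2 m² + 2 m`.
* `s = 3m + 2`: those with `k ≤ 2 m² + 2 m + 1`. -/
theorem result (k m : ℕ) (hk : 1 ≤ k) :
    (phi (ZMod 3 × ZMod (3 * k)) (3 * m) = 2 ↔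
      k ≤ m * (2 * m - 1) ∨ (Even m ∧ Even k ∧ k ≤ 2 * m ^ 2) ∨
        (Odd m ∧ k % 4 = 2 ∧ k ≤ 2 * m ^ 2)) ∧
    (phi (ZMod 3 × ZMod (3 * k)) (3 * m + 1) = 2 ↔ k ≤ 2 * m ^ 2 + 2 * m) ∧
    (phi (ZMod 3 × ZMod (3 * k)) (3 * m + 2) = 2 ↔ k ≤ 2 * m ^ 2 + 2 * m + 1) := by
  have h := fun s => R159.RankTwo.phi_eq_two_iff 3 k s (by norm_num) hk
    (AddEquiv.refl (ZMod 3 × ZMod (3 * k)))
  refine ⟨?_, ?_, ?_⟩
  · rw [phi_eq, h]
    unfold R159.RankTwo.Crit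
    have e1 : 3 * m / 3 = m := by omega
    have e2 : 3 * m % 3 = 0 := by omega
    rw [e1, e2]
    norm_num
  · rw [phi_eq, h]
    unfold R159.RankTwo.Crit
    have e1 : (3 * m + 1) / 3 = m := by omega
    have e2 : (3 * m + 1) % 3 = 1 := by omega
    rw [e1, e2]
    norm_num
  · rw [phi_eq, h]
    unfold R159.RankTwo.Crit
    have e1 : (3 * m + 2) / 3 = m := by omega
    have e2 : (3 * m + 2) % 3 = 2 := by omega
    rw [e1, e2]
    have o : Odd 3 := by decide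
    constructor
    · rintro (⟨h1, -⟩ | ⟨-, h1⟩ | ⟨-, -, h1⟩) <;> omega
    · intro h1
      rcases h1.eq_or_lt with h2 | h2
      · exact Or.inr (Or.inr ⟨o, rfl, h2⟩)
      · exact Or.inr (Or.inl ⟨by norm_num, by omega⟩)

end Pool.Agent.Results.MP_7e2005_co.ThreeCase
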